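import Pool.Agent.W651.SO.Stm

set_option autoImplicit false

/-! Subtask SO-GUN for helper651: union of two overlapping good sets. -/

namespace Pool.Agent.W651.SO

open Set

theorem gun : PropSUM → PropGUN := by
  intro hSUM Y _ _ hGO hSc G H hG hH hne
  obtain ⟨hGo, hGc, hGs, hGq⟩ := hG
  obtain ⟨hHo, hHc, hHs, hHq⟩ := hH
  obtain ⟨w, hwG, hwH⟩ := hne
  have hcvx : Cvx (G ∪ H) := by
    intro a ha b hb c hac hcb
    rcases ha with ha | ha <;> rcases hb with hb | hb
    · exact Or.inl (hGc a ha b hb c hac hcb)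
    · rcases le_total c w with h | h
      · exact Or.inl (hGc a ha w hwG c hac h)
      · exact Or.inr (hHc w hwH b hb c h hcb)
    · rcases le_total c w with h | h
      · exact Or.inr (hHc a ha w hwH c hac h)
      · exact Or.inl (hGc w hwG b hb c h hcb)
    · exact Or.inr (hHc a ha b hb c hac hcb)
  refine ⟨hGo.union hHo, hcvx, ?_, ?_⟩
  swap
  · rintro q (hq | hq)
    · exact hGq q hq
    · exact hHq q hq
  intro C hC hCo hCc
  obtain ⟨z, ⟨hzG, hzH⟩, U, hU, hUz⟩ := hSc (G ∩ H) ⟨w, hwG, hwH⟩
  have hzo : IsOpen ({z} : Set Y) := by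
    rw [← hUz]
    exact hU.inter (hGo.inter hHo)
  have hIci : IsOpen (Ici z) := by
    have : Ici z = {z} ∪ Ioi z := by
      ext x
      constructor
      · intro hx
        rcases eq_or_lt_of_le hx with h | h
        · exact Or.inl h.symm
        · exact Or.inr h
      · rintro (h | h)
        · exact le_of_eq h.symm
        · exact le_of_lt h
    rw [this]
    exact hzo.union (hGO.ioi z)
  have hIio : IsOpen (Iio z) := hGO.iio z
  -- a general observation
  have key : ∀ (S : Set Y), S ⊆ C → (∀ x ∈ S, ∀ y ∈ S, x ∉ G → y ∈ G → y ∈ H) →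
      S ⊆ G ∨ S ⊆ H := by
    intro S hS h
    by_cases hg : S ⊆ G
    · exact Or.inl hg
    · right
      obtain ⟨x1, hx1, hx1G⟩ := Set.not_subset.1 hg
      intro x hx
      rcases hC (hS hx) with h' | h'
      · exact h x1 hx1 x hx hx1G h'
      · exact h'
  have hsub1 : C ∩ Iio z ⊆ G ∨ C ∩ Iio z ⊆ H := by
    apply key _ inter_subset_left
    intro x1 hx1 x hx hx1G hxG
    have hx1H : x1 ∈ H := by
      rcases hC hx1.1 with h | h
      · exact absurd h hx1G
      · exact h
    rcases le_total x x1 with h | h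
    · exact absurd (hGc x hxG z hzG x1 h (le_of_lt hx1.2)) hx1G
    · exact hHc x1 hx1H z hzH x h (le_of_lt hx.2)
  have hsub2 : C ∩ Ici z ⊆ G ∨ C ∩ Ici z ⊆ H := by
    apply key _ inter_subset_left
    intro x1 hx1 x hx hx1G hxG
    have hx1H : x1 ∈ H := by
      rcases hC hx1.1 with h | h
      · exact absurd h hx1G
      · exact h
    rcases le_total x1 x with h | h
    · exact absurd (hGc z hzG x hxG x1 hx1.2 h) hx1G
    · exact hHc z hzH x1 hx1H x hx.2 h
  have hst : ∀ S : Set Y, IsOpen S → Cvx S → (S ⊆ G ∨ S ⊆ H) → St S := by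
    intro S hS hSc h
    rcases h with h | h
    · exact hGs S h hS hSc
    · exact hHs S h hS hSc
  have st1 : St (C ∩ Iio z) := by
    refine hst _ (hCo.inter hIio) ?_ hsub1
    intro a ha b hb c hac hcb
    exact ⟨hCc a ha.1 b hb.1 c hac hcb, lt_of_le_of_lt hcb hb.2⟩
  have st2 : St (C ∩ Ici z) := by
    refine hst _ (hCo.inter hIci) ?_ hsub2
    intro a ha b hb c hac hcb
    exact ⟨hCc a ha.1 b hb.1 c hac hcb, le_trans ha.2 hac⟩
  have hfin := hSUM Y Bool (fun i => if i = true then C ∩ Iio z else C ∩ Ici z) hSc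
    (by
      intro i
      cases i
      · exact hCo.inter hIci
      · exact hCo.inter hIio)
    (by
      have hd : Disjoint (C ∩ Iio z) (C ∩ Ici z) := by
        rw [Set.disjoint_left]
        intro x hx hx'
        exact absurd hx.2 (not_lt.2 hx'.2)
      intro i j hij
      cases i <;> cases j
      · exact absurd rfl hij
      · exact hd.symm
      · exact hd
      · exact absurd rfl hij)
    (by
      intro i
      cases i
      · exact st2
      · exact st1)
  have hun : (⋃ i : Bool, if i = true then C ∩ Iio z else C ∩ Ici z) = C := by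
    ext x
    rw [Set.mem_iUnion]
    constructor
    · rintro ⟨i, hi⟩
      cases i
      · exact hi.1
      · exact hi.1
    · intro hx
      rcases lt_or_ge x z with h | h
      · exact ⟨true, hx, h⟩
      · exact ⟨false, hx, h⟩
  rw [← hun]
  exact hfin

end Pool.Agent.W651.SO
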